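import Pool.Agent.R349.LocalMulti
import Pool.Agent.Q136.RH.Froz

/-!
# One step: all but a bounded number of the rational numbers of a short window are generic, relative to known numbers
-/

set_option autoImplicit false
set_option linter.unusedSectionVars false

open NumberField MvPolynomial
open Pool.Agent.R349 Pool.Agent.Y124
open Pool.Agent.Q136.RH (froz froz_eval cq cq_eval cq_coeff coeff_box rb el er el_apply er_apply)

namespace Pool.Agent.L5helper73.GS

theorem norm_intO (φ : ℚ →+* ℂ) (z : ℤ) : ‖φ ((z : 𝓞 ℚ) : ℚ)‖ = ‖(z : ℂ)‖ := by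
  have : ((z : 𝓞 ℚ) : ℚ) = (z : ℚ) := by
    show algebraMap (𝓞 ℚ) ℚ (z : 𝓞 ℚ) = _
    rw [map_intCast]
  rw [this, map_intCast]

/-- all finite subsets of `S` have at most `C` elements: `S` is a finite set with at most `C` elements -/
theorem exists_finset {α : Type} (S : Set α) (C : ℕ) (h : ∀ F : Finset α, (F : Set α) ⊆ S → F.card ≤ C) :
    ∃ E : Finset α, E.card ≤ C ∧ ∀ x ∈ S, x ∈ E := by
  have hfin : S.Finite := by
    by_contra hinf
    obtain ⟨F, hF, hFc⟩ := Set.Infinite.exists_subset_card_eq hinf (C + 1)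
    have := h F hF
    omega
  exact ⟨hfin.toFinset, h _ (by rw [Set.Finite.coe_toFinset]), fun x hx => hfin.mem_toFinset.2 hx⟩

theorem MgR_one {α : Type} (X : Fin 1 → Finset α) : MgR X = 1 := by
  unfold MgR
  simp

/-- a rational number of bounded size and denominator -/
theorem htLe_rat {T B : ℝ} (hT : 0 < T) (hB : 1 ≤ B) {x : ℚ} (h1 : |(x : ℝ)| ≤ B) (h2 : (x.den : ℝ) ≤ T) :
    Pool.Agent.Y120.HtLe ℚ (B * T) x := by
  have hT' : 0 < B * T := by positivity
  have hTT : T ≤ B * T := le_mul_of_one_le_left hT.le hB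
  refine ⟨((x.num : ℤ) : 𝓞 ℚ), ((x.den : ℕ) : 𝓞 ℚ), ?_, ?_, ?_, ?_⟩
  · exact_mod_cast x.den_pos.ne'
  · refine Pool.Agent.Y120.house_le ℚ hT'.le fun φ => ?_
    have e1 : ((((x.num : ℤ) : 𝓞 ℚ)) : ℚ) = ((x.num : ℤ) : ℚ) := by push_cast; rfl
    rw [e1, map_intCast, Complex.norm_intCast]
    have h4 : (x.num : ℝ) = (x : ℝ) * x.den := by
      have h5 : (x : ℝ) = (x.num : ℝ) / x.den := by exact_mod_cast (Rat.cast_def x : (x : ℝ) = _)
      have h6 : (x.den : ℝ) ≠ 0 := by exact_mod_cast x.den_pos.ne'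
      rw [h5]
      field_simp
    have h7 : |((x.den : ℕ) : ℝ)| = x.den := abs_of_nonneg (Nat.cast_nonneg _)
    rw [h4, abs_mul, h7]
    exact mul_le_mul h1 h2 (Nat.cast_nonneg _) (by linarith)
  · refine Pool.Agent.Y120.house_le ℚ hT'.le fun φ => ?_
    have e1 : ((((x.den : ℕ) : 𝓞 ℚ)) : ℚ) = ((x.den : ℕ) : ℚ) := by push_cast; rfl
    rw [e1, map_natCast, Complex.norm_natCast]
    exact h2.trans hTT
  · have e1 : ((((x.num : ℤ) : 𝓞 ℚ)) : ℚ) = ((x.num : ℤ) : ℚ) := by push_cast; rfl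
    have e2 : ((((x.den : ℕ) : 𝓞 ℚ)) : ℚ) = ((x.den : ℕ) : ℚ) := by push_cast; rfl
    rw [e1, e2]
    exact (Rat.num_div_den x).symm

/-- the relations: integral polynomials of degree at most `d` in each variable, with coefficients at most `H` -/
def Small {σ : Type} (d : ℕ) (H : ℝ) (Q : MvPolynomial σ ℤ) : Prop :=
  (∀ s, coeff s Q ≠ 0 → ∀ v, s v ≤ d) ∧ ∀ s, |((coeff s Q : ℤ) : ℝ)| ≤ H

/-- `x` is generic relative to the known numbers `ν` -/
def Gen {κ τ : Type} (f : κ → ℂ → ℂ) (ν : τ → ℂ) (d : ℕ) (H : ℝ) (x : ℚ) : Prop :=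
  ∀ Q : MvPolynomial (κ ⊕ τ) ℤ, Small d H Q → aeval (Sum.elim (fun i => f i x) ν) Q = 0 →
    ∀ g : κ → ℂ, aeval (Sum.elim g ν) Q = 0

theorem step {κ τ : Type} [Fintype κ] [DecidableEq κ] [Fintype τ] [DecidableEq τ] (f : κ → ℂ → ℂ) (a b : ℝ)
    (han : ∀ y, ∀ t : ℝ, a ≤ t → t ≤ b → AnalyticAt ℂ (f y) t) (hind : ∀ t : ℝ, a ≤ t → t ≤ b → LocInd f t)
    (d A : ℕ) (η : ℝ) (hη : 0 < η) :
    ∃ (C : ℕ) (T₀ : ℝ), 1 ≤ T₀ ∧ ∀ (ν : τ → ℂ) (T : ℝ), T₀ ≤ T → ∀ t : ℝ, a ≤ t → t ≤ b →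
      ∃ E : Finset ℚ, E.card ≤ C ∧ ∀ x : ℚ, |(x : ℝ) - t| ≤ T ^ (-η) → (x.den : ℝ) ≤ T → x ∉ E →
        Gen f ν d (T ^ A) x := by
  classical
  set L : Set ℂ := (fun x : ℝ => (x : ℂ)) '' Set.Icc a b with hL
  have hLc : IsCompact L := isCompact_Icc.image Complex.continuous_ofReal
  let g : ℕ := Fintype.card (τ → Fin (d + 1))
  let eg := Fintype.equivFin (τ → Fin (d + 1))
  obtain ⟨B, C, T₀, hB, hC, hT₀, H⟩ := mainL 1 1 g d (fun (_ : Fin 1) => f) L hLc
    (fun _ y t ht => by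
      obtain ⟨u, hu, rfl⟩ := ht
      exact han y u hu.1 hu.2)
    (fun _ t ht => by
      obtain ⟨u, hu, rfl⟩ := ht
      exact hind u hu.1 hu.2) A (η / 2) (by positivity)
  set c₀ : ℝ := |a| + |b| + 2 with hc₀
  have hc₀1 : 1 ≤ c₀ := by
    rw [hc₀]
    linarith [abs_nonneg b, abs_nonneg a]
  have hc₀p : 0 < c₀ := by linarith
  refine ⟨⌊C⌋₊, max T₀ c₀, hc₀1.trans (le_max_right _ _), fun ν T hT t hta htb => ?_⟩
  have hTT₀ : T₀ ≤ T := (le_max_left _ _).trans hT
  have hTc : c₀ ≤ T := (le_max_right _ _).trans hT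
  have hT1 : 1 ≤ T := hc₀1.trans hTc
  have hTp : 0 < T := by linarith
  set T' : ℝ := c₀ * T with hT'
  have hTT' : T ≤ T' := le_mul_of_one_le_left hTp.le hc₀1
  have hT'1 : 1 ≤ T' := hT1.trans hTT'
  have hT'p : 0 < T' := by linarith
  have hrad : T ^ (-η) ≤ T' ^ (-(η / 2)) := by
    rw [Real.rpow_neg hTp.le, Real.rpow_neg hT'p.le]
    refine inv_anti₀ (Real.rpow_pos_of_pos hT'p _) ?_
    calc T' ^ (η / 2) ≤ (T * T) ^ (η / 2) :=
          Real.rpow_le_rpow hT'p.le (mul_le_mul_of_nonneg_right hTc hTp.le) (by positivity)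
      _ = T ^ η := by
          rw [Real.mul_rpow hTp.le hTp.le, ← Real.rpow_add hTp]
          congr 1
          ring
  have hrad1 : T ^ (-η) ≤ 1 := Real.rpow_le_one_of_one_le_of_nonpos hT1 (by linarith)
  set S : Set ℚ := {x : ℚ | |(x : ℝ) - t| ≤ T ^ (-η) ∧ (x.den : ℝ) ≤ T ∧ ¬ Gen f ν d (T ^ A) x} with hS
  obtain ⟨E, hE1, hE2⟩ := exists_finset S ⌊C⌋₊ (fun F hF => by
    let X : Fin 1 → Finset ℚ := fun _ => F
    let F' : Finset (Fin 1 → ℚ) := F.map ⟨fun x _ => x, fun x y h => congrFun h 0⟩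
    have hcard : F'.card = F.card := Finset.card_map _
    have key := H ℚ (by simp) (algebraMap ℚ ℂ)
      (fun i => ∏ v, ν v ^ ((eg.symm i) v : ℕ)) T' (hTT₀.trans hTT')
      (fun _ => ⟨(t : ℂ), ⟨t, ⟨hta, htb⟩, rfl⟩⟩) X ?_ F' ?_
    · rw [MgR_one, mul_one, hcard] at key
      exact Nat.le_floor key
    · intro _ x hx
      have hxS := hF hx
      refine ⟨?_, htLe_rat hTp hc₀1 ?_ hxS.2.1⟩
      · have h3 : (algebraMap ℚ ℂ) x - (t : ℂ) = (((x : ℝ) - t : ℝ) : ℂ) := by
          simp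
        change ‖(algebraMap ℚ ℂ) x - (t : ℂ)‖ ≤ _
        rw [h3, Complex.norm_real, Real.norm_eq_abs]
        exact hxS.1.trans hrad
      · have h4 := hxS.1.trans hrad1
        rw [abs_le] at h4
        rw [abs_le, hc₀]
        have h5 := neg_abs_le a
        have h6 := le_abs_self b
        have h7 := abs_nonneg a
        have h8 := abs_nonneg b
        constructor <;> linarith [h4.1, h4.2]
    · intro z hz
      rw [Finset.mem_map] at hz
      obtain ⟨x, hx, rfl⟩ := hz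
      have hxS := hF hx
      refine ⟨fun _ => hx, ?_⟩
      have hng := hxS.2.2
      unfold Gen at hng
      push Not at hng
      obtain ⟨Q, hQ, hQ0, gg, hgg⟩ := hng
      -- the polynomial in the moving variables
      let P1 : MvPolynomial κ ℂ := froz ν (fun _ => 1) Q
      have hP1 : P1 ≠ 0 := by
        intro h0
        apply hgg
        have h1 := froz_eval ν (fun _ => 1) gg Q
        simp only [one_mul] at h1
        rw [← h1]
        change aeval gg P1 = 0
        rw [h0, map_zero]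
      let em : κ → Fin 1 × κ := fun i => (0, i)
      have hem : Function.Injective em := fun i j h => congrArg Prod.snd h
      have hems : Function.Surjective em := fun p => ⟨p.2, Prod.ext (Subsingleton.elim _ _) rfl⟩
      have hmd : ∀ s : Fin 1 × κ →₀ ℕ, ∃ u : κ →₀ ℕ, Finsupp.mapDomain em u = s ∧ ∀ i, u i = s (0, i) := by
        intro s
        refine ⟨Finsupp.equivFunOnFinite.symm fun i => s (0, i), ?_, fun i => rfl⟩
        ext p
        obtain ⟨i, rfl⟩ := hems p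
        rw [Finsupp.mapDomain_apply hem]
        rfl
      have hcoef : ∀ u : κ →₀ ℕ, coeff (Finsupp.mapDomain em u) (rename em P1) = coeff u P1 :=
        fun u => coeff_rename_mapDomain em hem P1 u
      have hval : aeval (fun i => f i x) P1 = 0 := by
        have h1 := froz_eval ν (fun _ => 1) (fun i => f i x) Q
        simp only [one_mul] at h1
        exact h1.trans hQ0
      refine ⟨rename em P1, ?_, ?_, ?_⟩
      · intro p
        rw [degreeOf_le_iff]
        intro s hs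
        obtain ⟨u, rfl, hu⟩ := hmd s
        rw [mem_support_iff, hcoef] at hs
        obtain ⟨i, rfl⟩ := hems p
        rw [Finsupp.mapDomain_apply hem]
        have h1 : coeff u P1 = _ := Pool.Agent.Q136.RH.coeff_froz ν (fun _ => 1) Q u
        rw [h1] at hs
        obtain ⟨s', hs', -⟩ := Finset.exists_ne_zero_of_sum_ne_zero (right_ne_zero_of_mul hs)
        rw [Finset.mem_filter, mem_support_iff] at hs'
        rw [← hs'.2, el_apply]
        exact hQ.1 s' hs'.1 _
      · intro s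
        obtain ⟨u, rfl, hu⟩ := hmd s
        rw [hcoef]
        refine ⟨fun i => ((coeff (rb u fun k => ((eg.symm i) k : ℕ)) Q : ℤ) : 𝓞 ℚ), fun i φ => ?_, ?_⟩
        · rw [norm_intO, Complex.norm_intCast]
          calc |((coeff (rb u fun k => ((eg.symm i) k : ℕ)) Q : ℤ) : ℝ)| ≤ T ^ A := hQ.2 _
            _ ≤ T' ^ A := pow_le_pow_left₀ hTp.le hTT' A
            _ = T' ^ ((A : ℕ) : ℝ) := (Real.rpow_natCast _ _).symm
        · have h1 : coeff u P1 = _ := coeff_box ν (fun _ => 1) Q u d hQ.1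
          rw [h1]
          simp only [one_pow, Finset.prod_const_one, one_mul]
          rw [← Equiv.sum_comp eg]
          simp only [Equiv.symm_apply_apply]
          refine Finset.sum_congr rfl fun φ _ => ?_
          have h2 : (((coeff (rb u fun k => (φ k : ℕ)) Q : ℤ) : 𝓞 ℚ) : ℚ) = ((coeff (rb u fun k => (φ k : ℕ)) Q : ℤ) : ℚ) := by
            show algebraMap (𝓞 ℚ) ℚ _ = _
            rw [map_intCast]
          rw [h2, map_intCast, mul_comm]
      · obtain ⟨s0, hs0⟩ := ne_zero_iff.1 hP1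
        refine ⟨Finsupp.mapDomain em s0, by rw [hcoef]; exact hs0, ?_⟩
        have h1 : aeval (fun z : Fin 1 × κ => f z.2 ((algebraMap ℚ ℂ) x)) (rename em P1) = 0 := by
          rw [aeval_rename]
          exact hval
        change ‖aeval (fun z : Fin 1 × κ => f z.2 ((algebraMap ℚ ℂ) x)) (rename em P1)‖ ≤ _
        rw [h1, norm_zero]
        exact mul_nonneg (Real.rpow_nonneg hT'p.le _) (norm_nonneg _))
  refine ⟨E, hE1, fun x h1 h2 h3 => ?_⟩
  by_contra h4
  exact h3 (hE2 x ⟨h1, h2, h4⟩)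

end Pool.Agent.L5helper73.GS
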