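import Pool.Agent.L5helper73.GS.A

/-!
# Sequences: all but boundedly many choices at each step give generic sequences
-/

set_option autoImplicit false
set_option linter.unusedSectionVars false

open NumberField MvPolynomial
open Pool.Agent.R349 Pool.Agent.Y124
open Pool.Agent.Q136.RH (froz froz_eval cq cq_eval cq_coeff coeff_box rb el er el_apply er_apply)

namespace Pool.Agent.L5helper73.GS

theorem Small.rename {σ τ : Type} {d : ℕ} {H : ℝ} (hH : 0 ≤ H) {Q : MvPolynomial σ ℤ} (h : Small d H Q) {e : σ → τ}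
    (he : Function.Injective e) : Small d H (MvPolynomial.rename e Q) := by
  classical
  have hc : ∀ s, coeff s (MvPolynomial.rename e Q) ≠ 0 → ∃ u, Finsupp.mapDomain e u = s ∧
      coeff s (MvPolynomial.rename e Q) = coeff u Q ∧ coeff u Q ≠ 0 := by
    intro s hs
    obtain ⟨u, hu, hu'⟩ := coeff_rename_ne_zero _ _ _ hs
    refine ⟨u, hu, ?_, hu'⟩
    rw [← hu, coeff_rename_mapDomain e he]
  constructor
  · intro s hs v
    obtain ⟨u, hu, -, hu'⟩ := hc s hs
    rw [← hu]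
    by_cases hv : v ∈ Set.range e
    · obtain ⟨v', rfl⟩ := hv
      rw [Finsupp.mapDomain_apply he]
      exact h.1 u hu' v'
    · rw [Finsupp.mapDomain_of_notMem_range _ _ hv]
      exact Nat.zero_le _
  · intro s
    by_cases hs : coeff s (MvPolynomial.rename e Q) = 0
    · rw [hs]
      simpa using hH
    · obtain ⟨u, -, hu, -⟩ := hc s hs
      rw [hu]
      exact h.2 u

theorem Small.of_rename {σ τ : Type} {d : ℕ} {H : ℝ} {Q : MvPolynomial σ ℤ} {e : σ → τ}
    (he : Function.Injective e) (h : Small d H (MvPolynomial.rename e Q)) : Small d H Q := by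
  constructor
  · intro s hs v
    have h1 := h.1 (Finsupp.mapDomain e s) (by rwa [coeff_rename_mapDomain e he]) (e v)
    rwa [Finsupp.mapDomain_apply he] at h1
  · intro s
    have h1 := h.2 (Finsupp.mapDomain e s)
    rwa [coeff_rename_mapDomain e he] at h1

theorem Small.mono {σ : Type} {d d' : ℕ} {H H' : ℝ} {Q : MvPolynomial σ ℤ} (h : Small d H Q) (hd : d ≤ d') (hH : H ≤ H') :
    Small d' H' Q := ⟨fun s hs v => (h.1 s hs v).trans hd, fun s => (h.2 s).trans hH⟩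

theorem Small.cq {κ τ : Type} [Fintype κ] [DecidableEq κ] [Fintype τ] [DecidableEq τ] {d : ℕ} {H : ℝ}
    {Q : MvPolynomial (κ ⊕ τ) ℤ} (h : Small d H Q) (μ : κ →₀ ℕ) : Small d H (Pool.Agent.Q136.RH.cq Q μ) := by
  constructor
  · intro s hs v
    rw [cq_coeff] at hs
    exact h.1 _ hs (Sum.inr v)
  · intro s
    rw [cq_coeff]
    exact h.2 _

section
variable {κ : ℕ → Type} [∀ j, Fintype (κ j)] [∀ j, DecidableEq (κ j)]

/-- the indices of all the numbers: constants and values -/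
abbrev IX (κ : ℕ → Type) : Type := ℕ ⊕ Σ j, κ j

/-- the indices of the known numbers at stage `j` -/
abbrev Kn (κ : ℕ → Type) (ψ : ℕ → ℕ) (j : ℕ) : Type := Fin (ψ j) ⊕ Σ i : Fin j, κ i

/-- the numbers -/
noncomputable def val (f : ∀ j, κ j → ℂ → ℂ) (c : ℕ → ℂ) (x : ℕ → ℚ) : IX κ → ℂ :=
  Sum.elim c fun p => f p.1 p.2 (x p.1)

/-- the known numbers as numbers -/
def kn (κ : ℕ → Type) (ψ : ℕ → ℕ) (j : ℕ) : Kn κ ψ j → IX κ :=
  Sum.elim (fun i => Sum.inl (i : ℕ)) fun p => Sum.inr ⟨p.1, p.2⟩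

theorem kn_inj (ψ : ℕ → ℕ) (j : ℕ) : Function.Injective (kn κ ψ j) := by
  rintro (i | ⟨i, u⟩) (i' | ⟨i', u'⟩) h
  · simp only [kn, Sum.elim_inl] at h
    rw [Fin.ext (Sum.inl_injective h)]
  · simp [kn] at h
  · simp [kn] at h
  · simp only [kn, Sum.elim_inr] at h
    have h1 := Sum.inr_injective h
    rw [Sigma.mk.injEq] at h1
    obtain ⟨h2, h3⟩ := h1
    have h4 := Fin.ext h2
    subst h4
    rw [eq_of_heq h3]

/-- the new and the known numbers -/
def em (κ : ℕ → Type) (ψ : ℕ → ℕ) (j : ℕ) : κ j ⊕ Kn κ ψ j → IX κ :=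
  Sum.elim (fun i => Sum.inr ⟨j, i⟩) (kn κ ψ j)

theorem em_inj (ψ : ℕ → ℕ) (j : ℕ) : Function.Injective (em κ ψ j) := by
  rintro (i | z) (i' | z') h
  · simp only [em, Sum.elim_inl] at h
    have h1 := Sum.inr_injective h
    rw [Sigma.mk.injEq] at h1
    rw [eq_of_heq h1.2]
  · simp only [em, Sum.elim_inl, Sum.elim_inr] at h
    rcases z' with i' | ⟨i', u'⟩
    · simp [kn] at h
    · simp only [kn, Sum.elim_inr] at h
      have h1 := Sum.inr_injective h
      rw [Sigma.mk.injEq] at h1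
      have := i'.2
      omega
  · simp only [em, Sum.elim_inl, Sum.elim_inr] at h
    rcases z with i' | ⟨i', u'⟩
    · simp [kn] at h
    · simp only [kn, Sum.elim_inr] at h
      have h1 := Sum.inr_injective h
      rw [Sigma.mk.injEq] at h1
      have := i'.2
      omega
  · simp only [em, Sum.elim_inr] at h
    rw [kn_inj ψ j h]

theorem val_em (f : ∀ j, κ j → ℂ → ℂ) (c : ℕ → ℂ) (x : ℕ → ℚ) (ψ : ℕ → ℕ) (j : ℕ) :
    val f c x ∘ em κ ψ j = Sum.elim (fun i => f j i (x j)) (val f c x ∘ kn κ ψ j) := by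
  funext z
  rcases z with i | z <;> rfl

/-- the relations of level `k` -/
def Adm (ψ : ℕ → ℕ) (k : ℕ) (H : ℝ) (P : MvPolynomial (IX κ) ℤ) : Prop :=
  Small (ψ k) H P ∧ ∀ i, Sum.inl i ∈ P.vars → i < ψ k

/-- the descent through the blocks -/
theorem descend (f : ∀ j, κ j → ℂ → ℂ) (ψ : ℕ → ℕ) (hψ : Monotone ψ) (T : ℕ → ℝ) (hT1 : ∀ j, 1 ≤ T j) (hT : Monotone T)
    (c : ℕ → ℂ) (x : ℕ → ℚ) (k : ℕ)
    (hG : ∀ j, k ≤ j → Gen (f j) (val f c x ∘ kn κ ψ j) (ψ j) (T j ^ ψ j) (x j))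
    (y : IX κ → ℂ) (hy1 : ∀ i, y (Sum.inl i) = c i) (hy2 : ∀ p : Σ j, κ j, p.1 < k → y (Sum.inr p) = f p.1 p.2 (x p.1)) :
    ∀ m, k ≤ m → ∀ P : MvPolynomial (IX κ) ℤ, Adm ψ k (T k ^ ψ k) P → (∀ p : Σ j, κ j, Sum.inr p ∈ P.vars → p.1 < m) →
      aeval (val f c x) P = 0 → aeval y P = 0 := by
  intro m hm
  induction m, hm using Nat.le_induction with
  | base =>
    intro P hP hv h0
    rw [← h0]
    refine eval₂Hom_congr' rfl (fun z hz _ => ?_) rfl
    rcases z with i | p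
    · exact hy1 i
    · exact hy2 p (hv p hz)
  | succ m hm ih =>
    intro P hP hv h0
    have hkm : ψ k ≤ ψ m := hψ hm
    have hTk1 : 1 ≤ T k := hT1 k
    have hHH : T k ^ ψ k ≤ T m ^ ψ m :=
      (pow_le_pow_right₀ hTk1 hkm).trans (pow_le_pow_left₀ (by linarith) (hT hm) _)
    have hH0 : 0 ≤ T k ^ ψ k := by positivity
    have hrange : (P.vars : Set (IX κ)) ⊆ Set.range (em κ ψ m) := by
      intro z hz
      rw [Finset.mem_coe] at hz
      rcases z with i | ⟨j, u⟩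
      · exact ⟨Sum.inr (Sum.inl ⟨i, (hP.2 i hz).trans_le hkm⟩), rfl⟩
      · have hj := hv ⟨j, u⟩ hz
        change j < m + 1 at hj
        rcases Nat.lt_succ_iff_lt_or_eq.1 hj with h | rfl
        · exact ⟨Sum.inr (Sum.inr ⟨⟨j, h⟩, u⟩), rfl⟩
        · exact ⟨Sum.inl u, rfl⟩
    obtain ⟨Q, rfl⟩ := exists_rename_eq_of_vars_subset_range P (em κ ψ m) (em_inj ψ m) hrange
    have hQs : Small (ψ k) (T k ^ ψ k) Q := hP.1.of_rename (em_inj ψ m)
    rw [aeval_rename, val_em] at h0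
    have hall := hG m hm Q (hQs.mono hkm hHH) h0
    -- all the coefficients vanish
    have hfr : froz (val f c x ∘ kn κ ψ m) (fun _ => 1) Q = 0 := by
      refine MvPolynomial.funext fun g => ?_
      have h1 := froz_eval (val f c x ∘ kn κ ψ m) (fun _ => 1) g Q
      simp only [one_mul] at h1
      rw [map_zero, ← hall g, ← h1]
      rfl
    have hcq : ∀ μ, aeval (val f c x ∘ kn κ ψ m) (cq Q μ) = 0 := by
      intro μ
      have h1 := cq_eval (val f c x ∘ kn κ ψ m) (fun _ => 1) Q μ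
      rw [hfr, coeff_zero] at h1
      simpa using h1.symm
    have hcqy : ∀ μ, aeval (y ∘ kn κ ψ m) (cq Q μ) = 0 := by
      intro μ
      rw [← aeval_rename]
      refine ih (rename (kn κ ψ m) (cq Q μ)) ⟨(hQs.cq μ).rename hH0 (kn_inj ψ m), ?_⟩ ?_ ?_
      · intro i hi
        classical
        -- the constants which occur
        have h2 : Sum.inl i ∈ (rename (em κ ψ m) Q).vars := by
          rw [mem_vars_iff_mem_support] at hi ⊢
          obtain ⟨s, hs, hsi⟩ := hi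
          rw [mem_support_iff] at hs
          obtain ⟨u, rfl, hu⟩ := coeff_rename_ne_zero _ _ _ hs
          rw [cq_coeff] at hu
          refine ⟨Finsupp.mapDomain (em κ ψ m) (rb μ u), ?_, ?_⟩
          · rw [mem_support_iff, coeff_rename_mapDomain _ (em_inj ψ m)]
            exact hu
          · rw [Finsupp.mem_support_iff] at hsi ⊢
            by_cases hr : Sum.inl i ∈ Set.range (kn κ ψ m)
            · obtain ⟨z, hz⟩ := hr
              rw [← hz, Finsupp.mapDomain_apply (kn_inj ψ m)] at hsi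
              have h3 : (Sum.inl i : IX κ) = em κ ψ m (Sum.inr z) := hz.symm
              rw [h3, Finsupp.mapDomain_apply (em_inj ψ m)]
              exact hsi
            · rw [Finsupp.mapDomain_of_notMem_range _ _ hr] at hsi
              exact absurd rfl hsi
        exact hP.2 i h2
      · intro p hp
        classical
        obtain ⟨z, -, hz⟩ := Finset.mem_image.1 (vars_rename (kn κ ψ m) (cq Q μ) hp)
        rcases z with i | ⟨j, u⟩
        · simp [kn] at hz
        · simp only [kn, Sum.elim_inr] at hz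
          rw [← Sum.inr_injective hz]
          exact j.2
      · rw [aeval_rename]
        exact hcq μ
    have hfry : froz (y ∘ kn κ ψ m) (fun _ => 1) Q = 0 := by
      ext μ
      rw [cq_eval, hcqy μ, mul_zero, coeff_zero]
    rw [aeval_rename]
    have h1 := froz_eval (y ∘ kn κ ψ m) (fun _ => 1) (fun i => y (Sum.inr ⟨m, i⟩)) Q
    simp only [one_mul] at h1
    rw [hfry, map_zero] at h1
    rw [h1]
    congr 1
    congr 1
    funext z
    rcases z with i | z <;> rfl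

end

/-- **The sequence theorem.** -/
theorem seq {κ : ℕ → Type} [∀ j, Fintype (κ j)] [∀ j, DecidableEq (κ j)] (f : ∀ j, κ j → ℂ → ℂ) (a b : ℕ → ℝ)
    (han : ∀ j y, ∀ t : ℝ, a j ≤ t → t ≤ b j → AnalyticAt ℂ (f j y) t)
    (hind : ∀ j, ∀ t : ℝ, a j ≤ t → t ≤ b j → LocInd (f j) t)
    (ψ : ℕ → ℕ) (hψ : Monotone ψ) (η : ℕ → ℝ) (hη : ∀ j, 0 < η j) :
    ∃ (C : ℕ → ℕ) (τ : ℕ → ℝ), (∀ j, 1 ≤ τ j) ∧ ∀ (T t : ℕ → ℝ) (c : ℕ → ℂ), Monotone T →
      (∀ j, τ j ≤ T j ∧ a j ≤ t j ∧ t j ≤ b j) →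
      ∃ E : ℕ → (ℕ → ℚ) → Finset ℚ, (∀ j x, (E j x).card ≤ C j) ∧
        (∀ j x x', (∀ i < j, x i = x' i) → E j x = E j x') ∧
        ∀ (x : ℕ → ℚ) (k : ℕ), (∀ j, k ≤ j → |(x j : ℝ) - t j| ≤ T j ^ (-η j) ∧ ((x j).den : ℝ) ≤ T j ∧ x j ∉ E j x) →
          ∀ P : MvPolynomial (IX κ) ℤ, Adm ψ k (T k ^ ψ k) P → aeval (val f c x) P = 0 →
          ∀ y : IX κ → ℂ, (∀ i, y (Sum.inl i) = c i) →
            (∀ p : Σ j, κ j, p.1 < k → y (Sum.inr p) = f p.1 p.2 (x p.1)) → aeval y P = 0 := by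
  classical
  have hst := fun j => step (τ := Kn κ ψ j) (f j) (a j) (b j) (han j) (hind j) (ψ j) (ψ j) (η j) (hη j)
  choose C τ hτ1 H using hst
  refine ⟨C, τ, hτ1, fun T t c hT hTt => ?_⟩
  have H' := fun j (ν : Kn κ ψ j → ℂ) => H j ν (T j) (hTt j).1 (t j) (hTt j).2.1 (hTt j).2.2
  choose E hE1 hE2 using H'
  refine ⟨fun j x => E j (val f c x ∘ kn κ ψ j), fun j x => hE1 _ _, ?_, ?_⟩
  · intro j x x' hx
    have h1 : val f c x ∘ kn κ ψ j = val f c x' ∘ kn κ ψ j := by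
      funext z
      rcases z with i | ⟨i, u⟩
      · rfl
      · show f i u (x i) = f i u (x' i)
        rw [hx i i.2]
    simp only [h1]
  · intro x k hx P hP h0 y hy1 hy2
    have hT1 : ∀ j, 1 ≤ T j := fun j => (hτ1 j).trans (hTt j).1
    have hG : ∀ j, k ≤ j → Gen (f j) (val f c x ∘ kn κ ψ j) (ψ j) (T j ^ ψ j) (x j) := fun j hj =>
      hE2 j _ (x j) (hx j hj).1 (hx j hj).2.1 (hx j hj).2.2
    obtain ⟨m, hm⟩ : ∃ m : ℕ, ∀ z ∈ P.vars, Sum.elim (fun _ => 0) (fun p : Σ j, κ j => p.1) z < m := by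
      refine ⟨(P.vars.sup (Sum.elim (fun _ => 0) (fun p : Σ j, κ j => p.1))) + 1, fun z hz => ?_⟩
      exact Nat.lt_succ_of_le (Finset.le_sup (f := Sum.elim (fun _ => 0) (fun p : Σ j, κ j => p.1)) hz)
    refine descend f ψ hψ T hT1 hT c x k hG y hy1 hy2 (max k m) (le_max_left _ _) P hP ?_ h0
    intro p hp
    exact (hm _ hp).trans_le (le_max_right _ _)

end Pool.Agent.L5helper73.GS
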