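import Pool.Agent.R349.GamFam
import Pool.Agent.L5helper73.GS.B

/-!
# The functions `Γ(1 + s t)`, `s` rational and positive
-/

set_option autoImplicit false
set_option linter.unusedSectionVars false

open NumberField MvPolynomial
open Pool.Agent.R349 Pool.Agent.Y124

namespace Pool.Agent.L5helper73.GS

/-- the positive rational numbers `u / v`, `1 ≤ u, v ≤ n` -/
def Mu (n : ℕ) : Finset ℚ := (Finset.Icc 1 n ×ˢ Finset.Icc 1 n).image fun p => (p.1 : ℚ) / p.2

theorem Mu_pos {n : ℕ} {s : ℚ} (h : s ∈ Mu n) : 0 < s := by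
  rw [Mu, Finset.mem_image] at h
  obtain ⟨p, hp, rfl⟩ := h
  rw [Finset.mem_product, Finset.mem_Icc, Finset.mem_Icc] at hp
  have h1 : (0 : ℚ) < p.1 := by exact_mod_cast hp.1.1
  have h2 : (0 : ℚ) < p.2 := by exact_mod_cast hp.2.1
  positivity

/-- the functions -/
noncomputable def gam (n : ℕ) (s : Mu n) (t : ℂ) : ℂ := Complex.Gamma (1 + (s : ℚ) * t)

theorem gam_eq (n : ℕ) (s : Mu n) :
    gam n s = gf (fun s : Mu n => (s : ℚ).num.natAbs) (fun s : Mu n => (s : ℚ).den) (fun _ => 0) s := by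
  funext t
  unfold gam gf
  congr 2
  have h0 := Mu_pos s.2
  have h1 : ((s : ℚ) : ℂ) = ((s : ℚ).num.natAbs : ℂ) / (s : ℚ).den := by
    have h2 : (s : ℚ) = ((s : ℚ).num.natAbs : ℚ) / (s : ℚ).den := by
      have h3 : (((s : ℚ).num.natAbs : ℤ)) = (s : ℚ).num := Int.natAbs_of_nonneg (Rat.num_nonneg.2 h0.le)
      have h4 : (((s : ℚ).num.natAbs : ℕ) : ℚ) = (((s : ℚ).num : ℤ) : ℚ) := by
        rw [← Int.cast_natCast, h3]
      rw [h4]
      exact (Rat.num_div_den _).symm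
    conv_lhs => rw [h2]
    push_cast
    rfl
  rw [h1]
  push_cast
  ring

theorem gam_an (n : ℕ) (s : Mu n) (t : ℝ) (ht : 0 < t) : AnalyticAt ℂ (gam n s) t := by
  have h0 := Mu_pos s.2
  unfold gam
  refine (Pool.Agent.Y771.RP.Gamma_analyticAt (z := 1 + (s : ℚ) * (t : ℂ)) fun k hk => ?_).comp_of_eq ?_ rfl
  · have h1 := congrArg Complex.re hk
    simp at h1
    have h2 : (0 : ℝ) ≤ k := Nat.cast_nonneg k
    have h3 : (0 : ℝ) < (s : ℚ) := by exact_mod_cast h0
    have h4 : 0 < ((s : ℚ) : ℝ) * t := mul_pos h3 ht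
    linarith
  · exact analyticAt_const.add (analyticAt_const.mul analyticAt_id)

theorem gam_ind (n : ℕ) (t : ℝ) (ht : 0 < t) : LocInd (gam n) (t : ℂ) := by
  classical
  have hD : ∀ s : Mu n, 0 < (s : ℚ).den := fun s => (s : ℚ).den_pos
  have hb : ∀ s : Mu n, 0 < (s : ℚ).num.natAbs := fun s => by
    have h0 := Mu_pos s.2
    have := Rat.num_pos.2 h0
    omega
  have hinj : ∀ i j : Mu n, i ≠ j → (i : ℚ).num.natAbs * (j : ℚ).den ≠ (j : ℚ).num.natAbs * (i : ℚ).den := by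
    intro i j hij h
    apply hij
    apply Subtype.ext
    rw [Rat.eq_iff_mul_eq_mul]
    have h0 := Rat.num_pos.2 (Mu_pos i.2)
    have h1 := Rat.num_pos.2 (Mu_pos j.2)
    have h2 : (((i : ℚ).num.natAbs : ℤ)) = (i : ℚ).num := Int.natAbs_of_nonneg h0.le
    have h3 : (((j : ℚ).num.natAbs : ℤ)) = (j : ℚ).num := Int.natAbs_of_nonneg h1.le
    rw [← h2, ← h3]
    exact_mod_cast h
  have hf : gam n = gf (fun s : Mu n => (s : ℚ).num.natAbs) (fun s : Mu n => (s : ℚ).den) (fun _ => 0) := by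
    funext s
    exact gam_eq n s
  rw [hf]
  set b : Mu n → ℕ := fun s => (s : ℚ).num.natAbs with hbd
  set D : Mu n → ℕ := fun s => (s : ℚ).den with hDd
  have hc : ∀ j : Mu n, (0 : ℤ) ≤ (fun _ : Mu n => (0 : ℤ)) j := fun _ => le_rfl
  have htm : (t : ℂ) ∈ Om b D := by
    intro j
    have h1 : (0 : ℝ) < D j := by exact_mod_cast hD j
    have h2 : (0 : ℝ) ≤ b j := Nat.cast_nonneg _
    rw [Complex.ofReal_re]
    have := mul_nonneg h2 ht.le
    linarith
  refine Pool.Agent.Y771.RP.locInd_of (gf b D _) (Om b D) Om_convex.isPreconnected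
    (fun j t ht => gf_an hD hc j t ht) ?_ _ htm
  intro P hP
  have h1 := shift_ind (gf b D fun _ => 0) (Om b D) (infinite_of_mem_nhds 0 (Om_isOpen.mem_nhds (zero_mem_Om hD))) (LL D : ℂ)
    (fun t ht => Om_shift t ht) (fun j t ht => gf_ne_zero hD hc j t ht) (RR b D fun _ => 0) (RR_ne_zero hD hb)
    (fun j t ht => gf_shift hD hc j t ht) (fun e e' hee => cls_cond hD hb hinj 0 (fun j => by simp) e e' hee)
    (MvPolynomial.optionEquivRight ℂ (Mu n) P) (fun t ht => by
      rw [← Pool.Agent.Y549.GM.eval_option]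
      exact hP t ht)
  exact (map_eq_zero_iff _ (MvPolynomial.optionEquivRight ℂ (Mu n)).injective).1 h1

end Pool.Agent.L5helper73.GS
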