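import Pool.Agent.L5helper73.GS.B

/-!
# Steps and sequences over number fields, with additional known numbers
-/

set_option autoImplicit false
set_option linter.unusedSectionVars false

open NumberField MvPolynomial
open Pool.Agent.R349 Pool.Agent.Y124
open Pool.Agent.Q136.RH (froz froz_eval cq cq_eval cq_coeff coeff_box rb el er el_apply er_apply)

namespace Pool.Agent.L5helper73.GS

/-- `z` is generic relative to the known numbers `ν` -/
def GenC {κ τ : Type} (f : κ → ℂ → ℂ) (ν : τ → ℂ) (d : ℕ) (H : ℝ) (z : ℂ) : Prop :=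
  ∀ Q : MvPolynomial (κ ⊕ τ) ℤ, Small d H Q → aeval (Sum.elim (fun i => f i z) ν) Q = 0 →
    ∀ g : κ → ℂ, aeval (Sum.elim g ν) Q = 0

theorem norm_intF {F : Type} [Field F] [NumberField F] (φ : F →+* ℂ) (z : ℤ) : φ ((z : 𝓞 F) : F) = (z : ℂ) := by
  have : ((z : 𝓞 F) : F) = (z : F) := by
    show algebraMap (𝓞 F) F (z : 𝓞 F) = _
    rw [map_intCast]
  rw [this, map_intCast]

theorem stepF {κ τ : Type} [Fintype κ] [DecidableEq κ] [Fintype τ] [DecidableEq τ] (f : κ → ℂ → ℂ) (L : Set ℂ)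
    (hL : IsCompact L) (han : ∀ y, ∀ t ∈ L, AnalyticAt ℂ (f y) t) (hind : ∀ t ∈ L, LocInd f t)
    (m d A : ℕ) (η : ℝ) (hη : 0 < η) :
    ∃ (C : ℕ) (T₀ : ℝ), 1 ≤ T₀ ∧ ∀ (F : Type) [Field F] [NumberField F], Module.finrank ℚ F ≤ m → ∀ (ι : F →+* ℂ)
      (ν : τ → ℂ) (T : ℝ), T₀ ≤ T → ∀ t ∈ L,
      ∃ E : Finset F, E.card ≤ C ∧ ∀ x : F, ‖ι x - t‖ ≤ T ^ (-η) → Pool.Agent.Y120.HtLe F T x → x ∉ E →
        GenC f ν d (T ^ A) (ι x) := by
  classical
  let g : ℕ := Fintype.card (τ → Fin (d + 1))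
  let eg := Fintype.equivFin (τ → Fin (d + 1))
  obtain ⟨B, C, T₀, hB, hC, hT₀, H⟩ := mainL m 1 g d (fun (_ : Fin 1) => f) L hL
    (fun _ y t ht => han y t ht) (fun _ t ht => hind t ht) A η hη
  refine ⟨⌊C⌋₊, T₀, by linarith, fun F _ _ hm ι ν T hT t ht => ?_⟩
  have hT1 : 1 ≤ T := by linarith
  have hTp : 0 < T := by linarith
  set S : Set F := {x : F | ‖ι x - t‖ ≤ T ^ (-η) ∧ Pool.Agent.Y120.HtLe F T x ∧ ¬ GenC f ν d (T ^ A) (ι x)} with hS
  obtain ⟨E, hE1, hE2⟩ := exists_finset S ⌊C⌋₊ (fun G hG => by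
    let X : Fin 1 → Finset F := fun _ => G
    let G' : Finset (Fin 1 → F) := G.map ⟨fun x _ => x, fun x y h => congrFun h 0⟩
    have hcard : G'.card = G.card := Finset.card_map _
    have key := H F hm ι
      (fun i => ∏ v, ν v ^ ((eg.symm i) v : ℕ)) T hT
      (fun _ => ⟨t, ht⟩) X ?_ G' ?_
    · rw [MgR_one, mul_one, hcard] at key
      exact Nat.le_floor key
    · intro _ x hx
      exact ⟨(hG hx).1, (hG hx).2.1⟩
    · intro z hz
      rw [Finset.mem_map] at hz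
      obtain ⟨x, hx, rfl⟩ := hz
      have hxS := hG hx
      refine ⟨fun _ => hx, ?_⟩
      have hng := hxS.2.2
      unfold GenC at hng
      push Not at hng
      obtain ⟨Q, hQ, hQ0, gg, hgg⟩ := hng
      -- the polynomial in the moving variables
      let P1 : MvPolynomial κ ℂ := froz ν (fun _ => 1) Q
      have hP1 : P1 ≠ 0 := by
        intro h0
        apply hgg
        have h1 := froz_eval ν (fun _ => 1) gg Q
        simp only [one_mul] at h1
        rw [← h1]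
        change aeval gg P1 = 0
        rw [h0, map_zero]
      let em : κ → Fin 1 × κ := fun i => (0, i)
      have hem : Function.Injective em := fun i j h => congrArg Prod.snd h
      have hems : Function.Surjective em := fun p => ⟨p.2, Prod.ext (Subsingleton.elim _ _) rfl⟩
      have hmd : ∀ s : Fin 1 × κ →₀ ℕ, ∃ u : κ →₀ ℕ, Finsupp.mapDomain em u = s ∧ ∀ i, u i = s (0, i) := by
        intro s
        refine ⟨Finsupp.equivFunOnFinite.symm fun i => s (0, i), ?_, fun i => rfl⟩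
        ext p
        obtain ⟨i, rfl⟩ := hems p
        rw [Finsupp.mapDomain_apply hem]
        rfl
      have hcoef : ∀ u : κ →₀ ℕ, coeff (Finsupp.mapDomain em u) (rename em P1) = coeff u P1 :=
        fun u => coeff_rename_mapDomain em hem P1 u
      have hval : aeval (fun i => f i (ι x)) P1 = 0 := by
        have h1 := froz_eval ν (fun _ => 1) (fun i => f i (ι x)) Q
        simp only [one_mul] at h1
        exact h1.trans hQ0
      refine ⟨rename em P1, ?_, ?_, ?_⟩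
      · intro p
        rw [degreeOf_le_iff]
        intro s hs
        obtain ⟨u, rfl, hu⟩ := hmd s
        rw [mem_support_iff, hcoef] at hs
        obtain ⟨i, rfl⟩ := hems p
        rw [Finsupp.mapDomain_apply hem]
        have h1 : coeff u P1 = _ := Pool.Agent.Q136.RH.coeff_froz ν (fun _ => 1) Q u
        rw [h1] at hs
        obtain ⟨s', hs', -⟩ := Finset.exists_ne_zero_of_sum_ne_zero (right_ne_zero_of_mul hs)
        rw [Finset.mem_filter, mem_support_iff] at hs'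
        rw [← hs'.2, el_apply]
        exact hQ.1 s' hs'.1 _
      · intro s
        obtain ⟨u, rfl, hu⟩ := hmd s
        rw [hcoef]
        refine ⟨fun i => ((coeff (rb u fun k => ((eg.symm i) k : ℕ)) Q : ℤ) : 𝓞 F), fun i φ => ?_, ?_⟩
        · rw [norm_intF, Complex.norm_intCast]
          calc |((coeff (rb u fun k => ((eg.symm i) k : ℕ)) Q : ℤ) : ℝ)| ≤ T ^ A := hQ.2 _
            _ = T ^ ((A : ℕ) : ℝ) := (Real.rpow_natCast _ _).symm
        · have h1 : coeff u P1 = _ := coeff_box ν (fun _ => 1) Q u d hQ.1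
          rw [h1]
          simp only [one_pow, Finset.prod_const_one, one_mul]
          rw [← Equiv.sum_comp eg]
          simp only [Equiv.symm_apply_apply]
          refine Finset.sum_congr rfl fun φ _ => ?_
          rw [norm_intF, mul_comm]
      · obtain ⟨s0, hs0⟩ := ne_zero_iff.1 hP1
        refine ⟨Finsupp.mapDomain em s0, by rw [hcoef]; exact hs0, ?_⟩
        have h1 : aeval (fun z : Fin 1 × κ => f z.2 (ι x)) (rename em P1) = 0 := by
          rw [aeval_rename]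
          exact hval
        change ‖aeval (fun z : Fin 1 × κ => f z.2 (ι x)) (rename em P1)‖ ≤ _
        rw [h1, norm_zero]
        exact mul_nonneg (Real.rpow_nonneg hTp.le _) (norm_nonneg _))
  refine ⟨E, hE1, fun x h1 h2 h3 => ?_⟩
  by_contra h4
  exact h3 (hE2 x ⟨h1, h2, h4⟩)

section
variable {κ κ' : ℕ → Type} [∀ j, Fintype (κ j)] [∀ j, DecidableEq (κ j)] [∀ j, Fintype (κ' j)] [∀ j, DecidableEq (κ' j)]

/-- the numbers -/
noncomputable def valC (f : ∀ j, κ' j → ℂ → ℂ) (c : ℕ → ℂ) (x : ℕ → ℂ) : IX κ' → ℂ :=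
  Sum.elim c fun p => f p.1 p.2 (x p.1)

/-- the new (selected) and the known numbers -/
def emC (e : ∀ j, κ j → κ' j) (ψ : ℕ → ℕ) (j : ℕ) : κ j ⊕ Kn κ' ψ j → IX κ' :=
  Sum.elim (fun i => Sum.inr ⟨j, e j i⟩) (kn κ' ψ j)

theorem emC_inj {e : ∀ j, κ j → κ' j} (he : ∀ j, Function.Injective (e j)) (ψ : ℕ → ℕ) (j : ℕ) :
    Function.Injective (emC e ψ j) := by
  rintro (i | z) (i' | z') h
  · simp only [emC, Sum.elim_inl] at h
    have h1 := Sum.inr_injective h
    rw [Sigma.mk.injEq] at h1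
    rw [he j (eq_of_heq h1.2)]
  · simp only [emC, Sum.elim_inl, Sum.elim_inr] at h
    rcases z' with i' | ⟨i', u'⟩
    · simp [kn] at h
    · simp only [kn, Sum.elim_inr] at h
      have h1 := Sum.inr_injective h
      rw [Sigma.mk.injEq] at h1
      have := i'.2
      omega
  · simp only [emC, Sum.elim_inl, Sum.elim_inr] at h
    rcases z with i' | ⟨i', u'⟩
    · simp [kn] at h
    · simp only [kn, Sum.elim_inr] at h
      have h1 := Sum.inr_injective h
      rw [Sigma.mk.injEq] at h1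
      have := i'.2
      omega
  · simp only [emC, Sum.elim_inr] at h
    rw [kn_inj ψ j h]

theorem valC_em (f : ∀ j, κ' j → ℂ → ℂ) (c : ℕ → ℂ) (x : ℕ → ℂ) (e : ∀ j, κ j → κ' j) (ψ : ℕ → ℕ) (j : ℕ) :
    valC f c x ∘ emC e ψ j = Sum.elim (fun i => f j (e j i) (x j)) (valC f c x ∘ kn κ' ψ j) := by
  funext z
  rcases z with i | z <;> rfl

/-- the relations of level `k`: constants before `ψ k`, selected functions in the blocks from `k` on -/
def AdmC (e : ∀ j, κ j → κ' j) (ψ : ℕ → ℕ) (k : ℕ) (H : ℝ) (P : MvPolynomial (IX κ') ℤ) : Prop :=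
  Small (ψ k) H P ∧ (∀ i, Sum.inl i ∈ P.vars → i < ψ k) ∧ ∀ p : Σ j, κ' j, Sum.inr p ∈ P.vars → k ≤ p.1 → ∃ i, p.2 = e p.1 i

/-- the variables of the coefficients -/
theorem vars_cq {e : ∀ j, κ j → κ' j} (he : ∀ j, Function.Injective (e j)) (ψ : ℕ → ℕ) (m : ℕ)
    (Q : MvPolynomial (κ m ⊕ Kn κ' ψ m) ℤ) (μ : κ m →₀ ℕ) (w : IX κ') (hw : w ∈ (rename (kn κ' ψ m) (cq Q μ)).vars) :
    w ∈ (rename (emC e ψ m) Q).vars ∧ ∃ z, w = kn κ' ψ m z := by
  classical
  have hz : ∃ z, w = kn κ' ψ m z := by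
    obtain ⟨z, -, hz⟩ := Finset.mem_image.1 (vars_rename (kn κ' ψ m) (cq Q μ) hw)
    exact ⟨z, hz.symm⟩
  refine ⟨?_, hz⟩
  obtain ⟨z, rfl⟩ := hz
  rw [mem_vars_iff_mem_support] at hw ⊢
  obtain ⟨s, hs, hsi⟩ := hw
  rw [mem_support_iff] at hs
  obtain ⟨u, rfl, hu⟩ := coeff_rename_ne_zero _ _ _ hs
  rw [cq_coeff] at hu
  refine ⟨Finsupp.mapDomain (emC e ψ m) (rb μ u), ?_, ?_⟩
  · rw [mem_support_iff, coeff_rename_mapDomain _ (emC_inj he ψ m)]
    exact hu
  · rw [Finsupp.mem_support_iff] at hsi ⊢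
    rw [Finsupp.mapDomain_apply (kn_inj ψ m)] at hsi
    have h3 : kn κ' ψ m z = emC e ψ m (Sum.inr z) := rfl
    rw [h3, Finsupp.mapDomain_apply (emC_inj he ψ m)]
    exact hsi

/-- the descent through the blocks -/
theorem descendC (f : ∀ j, κ' j → ℂ → ℂ) {e : ∀ j, κ j → κ' j} (he : ∀ j, Function.Injective (e j)) (ψ : ℕ → ℕ)
    (hψ : Monotone ψ) (T : ℕ → ℝ) (hT1 : ∀ j, 1 ≤ T j) (hT : Monotone T)
    (c : ℕ → ℂ) (x : ℕ → ℂ) (k : ℕ)
    (hG : ∀ j, k ≤ j → GenC (fun i => f j (e j i)) (valC f c x ∘ kn κ' ψ j) (ψ j) (T j ^ ψ j) (x j))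
    (y : IX κ' → ℂ) (hy1 : ∀ i, y (Sum.inl i) = c i) (hy2 : ∀ p : Σ j, κ' j, p.1 < k → y (Sum.inr p) = f p.1 p.2 (x p.1)) :
    ∀ m, k ≤ m → ∀ P : MvPolynomial (IX κ') ℤ, AdmC e ψ k (T k ^ ψ k) P → (∀ p : Σ j, κ' j, Sum.inr p ∈ P.vars → p.1 < m) →
      aeval (valC f c x) P = 0 → aeval y P = 0 := by
  intro m hm
  induction m, hm using Nat.le_induction with
  | base =>
    intro P hP hv h0
    rw [← h0]
    refine eval₂Hom_congr' rfl (fun z hz _ => ?_) rfl
    rcases z with i | p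
    · exact hy1 i
    · exact hy2 p (hv p hz)
  | succ m hm ih =>
    intro P hP hv h0
    have hkm : ψ k ≤ ψ m := hψ hm
    have hTk1 : 1 ≤ T k := hT1 k
    have hHH : T k ^ ψ k ≤ T m ^ ψ m :=
      (pow_le_pow_right₀ hTk1 hkm).trans (pow_le_pow_left₀ (by linarith) (hT hm) _)
    have hH0 : 0 ≤ T k ^ ψ k := by positivity
    have hrange : (P.vars : Set (IX κ')) ⊆ Set.range (emC e ψ m) := by
      intro z hz
      rw [Finset.mem_coe] at hz
      rcases z with i | ⟨j, u⟩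
      · exact ⟨Sum.inr (Sum.inl ⟨i, (hP.2.1 i hz).trans_le hkm⟩), rfl⟩
      · have hj := hv ⟨j, u⟩ hz
        change j < m + 1 at hj
        rcases Nat.lt_succ_iff_lt_or_eq.1 hj with h | rfl
        · exact ⟨Sum.inr (Sum.inr ⟨⟨j, h⟩, u⟩), rfl⟩
        · obtain ⟨i, hi⟩ := hP.2.2 ⟨j, u⟩ hz hm
          exact ⟨Sum.inl i, congrArg (fun u => (Sum.inr ⟨j, u⟩ : IX κ')) (Eq.symm hi)⟩
    obtain ⟨Q, rfl⟩ := exists_rename_eq_of_vars_subset_range P (emC e ψ m) (emC_inj he ψ m) hrange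
    have hQs : Small (ψ k) (T k ^ ψ k) Q := hP.1.of_rename (emC_inj he ψ m)
    rw [aeval_rename, valC_em] at h0
    have hall := hG m hm Q (hQs.mono hkm hHH) h0
    -- all the coefficients vanish
    have hfr : froz (valC f c x ∘ kn κ' ψ m) (fun _ => 1) Q = 0 := by
      refine MvPolynomial.funext fun g => ?_
      have h1 := froz_eval (valC f c x ∘ kn κ' ψ m) (fun _ => 1) g Q
      simp only [one_mul] at h1
      rw [map_zero, ← hall g, ← h1]
      rfl
    have hcq : ∀ μ, aeval (valC f c x ∘ kn κ' ψ m) (cq Q μ) = 0 := by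
      intro μ
      have h1 := cq_eval (valC f c x ∘ kn κ' ψ m) (fun _ => 1) Q μ
      rw [hfr, coeff_zero] at h1
      simpa using h1.symm
    have hcqy : ∀ μ, aeval (y ∘ kn κ' ψ m) (cq Q μ) = 0 := by
      intro μ
      rw [← aeval_rename]
      refine ih (rename (kn κ' ψ m) (cq Q μ)) ⟨(hQs.cq μ).rename hH0 (kn_inj ψ m), ?_, ?_⟩ ?_ ?_
      · intro i hi
        exact hP.2.1 i (vars_cq he ψ m Q μ _ hi).1
      · intro p hp hkp
        exact hP.2.2 p (vars_cq he ψ m Q μ _ hp).1 hkp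
      · intro p hp
        obtain ⟨-, z, hz⟩ := vars_cq he ψ m Q μ _ hp
        rcases z with i | ⟨j, u⟩
        · simp [kn] at hz
        · simp only [kn, Sum.elim_inr] at hz
          rw [Sum.inr_injective hz]
          exact j.2
      · rw [aeval_rename]
        exact hcq μ
    have hfry : froz (y ∘ kn κ' ψ m) (fun _ => 1) Q = 0 := by
      ext μ
      rw [cq_eval, hcqy μ, mul_zero, coeff_zero]
    rw [aeval_rename]
    have h1 := froz_eval (y ∘ kn κ' ψ m) (fun _ => 1) (fun i => y (Sum.inr ⟨m, e m i⟩)) Q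
    simp only [one_mul] at h1
    rw [hfry, map_zero] at h1
    rw [h1]
    congr 1
    congr 1
    funext z
    rcases z with i | z <;> rfl

end

/-- **The sequence theorem over number fields.** -/
theorem seqF {κ κ' : ℕ → Type} [∀ j, Fintype (κ j)] [∀ j, DecidableEq (κ j)] [∀ j, Fintype (κ' j)] [∀ j, DecidableEq (κ' j)]
    (f : ∀ j, κ' j → ℂ → ℂ) (e : ∀ j, κ j → κ' j) (he : ∀ j, Function.Injective (e j))
    (L : ℕ → Set ℂ) (hL : ∀ j, IsCompact (L j)) (han : ∀ j i, ∀ t ∈ L j, AnalyticAt ℂ (f j (e j i)) t)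
    (hind : ∀ j, ∀ t ∈ L j, LocInd (fun i => f j (e j i)) t)
    (ψ : ℕ → ℕ) (hψ : Monotone ψ) (m : ℕ → ℕ) (η : ℕ → ℝ) (hη : ∀ j, 0 < η j) :
    ∃ (C : ℕ → ℕ) (τ : ℕ → ℝ), (∀ j, 1 ≤ τ j) ∧ ∀ (F : ℕ → Type) [∀ j, Field (F j)] [∀ j, NumberField (F j)],
      (∀ j, Module.finrank ℚ (F j) ≤ m j) → ∀ (ι : ∀ j, F j →+* ℂ) (T : ℕ → ℝ) (t c : ℕ → ℂ), Monotone T →
      (∀ j, τ j ≤ T j ∧ t j ∈ L j) →
      ∃ E : ∀ j, (∀ i, F i) → Finset (F j), (∀ j x, (E j x).card ≤ C j) ∧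
        (∀ j (x x' : ∀ i, F i), (∀ i < j, x i = x' i) → E j x = E j x') ∧
        ∀ (x : ∀ i, F i) (k : ℕ), (∀ j, k ≤ j → ‖ι j (x j) - t j‖ ≤ T j ^ (-η j) ∧ Pool.Agent.Y120.HtLe (F j) (T j) (x j) ∧
            x j ∉ E j x) →
          ∀ P : MvPolynomial (IX κ') ℤ, AdmC e ψ k (T k ^ ψ k) P → aeval (valC f c fun j => ι j (x j)) P = 0 →
          ∀ y : IX κ' → ℂ, (∀ i, y (Sum.inl i) = c i) →
            (∀ p : Σ j, κ' j, p.1 < k → y (Sum.inr p) = f p.1 p.2 (ι p.1 (x p.1))) → aeval y P = 0 := by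
  classical
  have hst := fun j => stepF (τ := Kn κ' ψ j) (fun i => f j (e j i)) (L j) (hL j) (fun i => han j i) (hind j) (m j)
    (ψ j) (ψ j) (η j) (hη j)
  choose C τ hτ1 H using hst
  refine ⟨C, τ, hτ1, fun F _ _ hF ι T t c hT hTt => ?_⟩
  have H' := fun j (ν : Kn κ' ψ j → ℂ) => H j (F j) (hF j) (ι j) ν (T j) (hTt j).1 (t j) (hTt j).2
  choose E hE1 hE2 using H'
  refine ⟨fun j x => E j (valC f c (fun j => ι j (x j)) ∘ kn κ' ψ j), fun j x => hE1 _ _, ?_, ?_⟩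
  · intro j x x' hx
    have h1 : valC f c (fun j => ι j (x j)) ∘ kn κ' ψ j = valC f c (fun j => ι j (x' j)) ∘ kn κ' ψ j := by
      funext z
      rcases z with i | ⟨i, u⟩
      · rfl
      · show f i u (ι i (x i)) = f i u (ι i (x' i))
        rw [hx i i.2]
    simp only [h1]
  · intro x k hx P hP h0 y hy1 hy2
    have hT1 : ∀ j, 1 ≤ T j := fun j => (hτ1 j).trans (hTt j).1
    have hG : ∀ j, k ≤ j → GenC (fun i => f j (e j i)) (valC f c (fun j => ι j (x j)) ∘ kn κ' ψ j) (ψ j) (T j ^ ψ j)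
        (ι j (x j)) := fun j hj => hE2 j _ (x j) (hx j hj).1 (hx j hj).2.1 (hx j hj).2.2
    obtain ⟨m, hm⟩ : ∃ m : ℕ, ∀ z ∈ P.vars, Sum.elim (fun _ => 0) (fun p : Σ j, κ' j => p.1) z < m := by
      refine ⟨(P.vars.sup (Sum.elim (fun _ => 0) (fun p : Σ j, κ' j => p.1))) + 1, fun z hz => ?_⟩
      exact Nat.lt_succ_of_le (Finset.le_sup (f := Sum.elim (fun _ => 0) (fun p : Σ j, κ' j => p.1)) hz)
    refine descendC f he ψ hψ T hT1 hT c (fun j => ι j (x j)) k hG y hy1 hy2 (max k m) (le_max_left _ _) P hP ?_ h0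
    intro p hp
    exact (hm _ hp).trans_le (le_max_right _ _)

end Pool.Agent.L5helper73.GS
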