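import Pool.Agent.R349.ExpLog

/-!
# Towers of all heights are algebraically independent functions of the top entry
-/

set_option autoImplicit false

open Filter Topology Set MvPolynomial

noncomputable section

namespace Pool.Agent.L5helper73.GS

open Pool.Agent.Y776.Cv
open Pool.Agent.Y776.Fam (IndC)
open Pool.Agent.Y124 (LocInd)
open Pool.Agent.Y685 (clo mem_clo_iff subset_clo base_clo clo_le)

/-- `e^(μ_i e^(μ_j ⋯ z))` for the word `i, j, …` -/
def tow {α : Type} (μ : α → ℂ) : List α → ℂ → ℂ
  | [], z => z
  | i :: w, z => Complex.exp (μ i * tow μ w z)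

theorem tow_an {α : Type} (μ : α → ℂ) (w : List α) : AnalyticOnNhd ℂ (tow μ w) univ := by
  induction w with
  | nil => exact fun z _ => analyticAt_id
  | cons i w ih => exact fun z hz => ((analyticAt_const).mul (ih z hz)).cexp

/-- nonempty words of length at most `h` -/
abbrev Wd (α : Type) (h : ℕ) : Type := {w : List α // w ≠ [] ∧ w.length ≤ h}

instance {α : Type} [Finite α] (h : ℕ) : Finite (Wd α h) := by
  have : {l : List α | l.length ≤ h}.Finite := List.finite_length_le α h
  exact Set.Finite.subset this (s := {l : List α | l.length ≤ h}) (t := {w : List α | w ≠ [] ∧ w.length ≤ h}) (fun w hw => hw.2)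

/-- the rest of a word -/
def rest {α : Type} {h : ℕ} (w : Wd α (h + 1)) : Option (Wd α h) := by
  classical
  exact if hw : w.1.tail = [] then none else some ⟨w.1.tail, hw, by
    have := w.2.2
    rw [List.length_tail]
    omega⟩

theorem rest_tow {α : Type} (μ : α → ℂ) {h : ℕ} (w : Wd α (h + 1)) (z : ℂ) :
    (rest w).elim z (fun v => tow μ v.1 z) = tow μ w.1.tail z := by
  unfold rest
  by_cases hw : w.1.tail = []
  · simp only [hw, dite_true, Option.elim_none]
    rfl
  · simp only [hw, dite_false, Option.elim_some]

theorem rest_inj {α : Type} {h : ℕ} {w w' : Wd α (h + 1)} (hr : rest w = rest w') : w.1.tail = w'.1.tail := by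
  unfold rest at hr
  by_cases hw : w.1.tail = [] <;> by_cases hw' : w'.1.tail = []
  · rw [hw, hw']
  · simp [hw, hw'] at hr
  · simp [hw, hw'] at hr
  · simpa [hw, hw'] using hr

theorem tow_head {α : Type} (μ : α → ℂ) {h : ℕ} (w : Wd α h) (z : ℂ) :
    tow μ w.1 z = Complex.exp (μ (w.1.head w.2.1) * tow μ w.1.tail z) := by
  obtain ⟨w, hw, _⟩ := w
  cases w with
  | nil => exact absurd rfl hw
  | cons i w => rfl

theorem head_tail {α : Type} {h : ℕ} {w w' : Wd α h} (h1 : w.1.head w.2.1 = w'.1.head w'.2.1)
    (h2 : w.1.tail = w'.1.tail) : w = w' := by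
  obtain ⟨w, hw, _⟩ := w
  obtain ⟨w', hw', _⟩ := w'
  cases w with
  | nil => exact absurd rfl hw
  | cons i w =>
    cases w' with
    | nil => exact absurd rfl hw'
    | cons i' w' =>
      simp only [List.head_cons, List.tail_cons] at h1 h2
      subst h1 h2
      rfl

/-- one step -/
theorem tow_step {α : Type} [Finite α] {μ : α → ℂ} (hμ : LinearIndependent ℚ μ) {h : ℕ}
    (ih : ∀ t : ℂ, LocInd (fun (w : Wd α h) z => tow μ w.1 z) t) (hne : Nonempty α) :
    ∀ t : ℂ, LocInd (fun (w : Wd α (h + 1)) z => tow μ w.1 z) t := by
  classical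
  have : Fintype (Wd α (h + 1)) := Fintype.ofFinite _
  have : Fintype (Wd α h) := Fintype.ofFinite _
  set s := Fintype.card (Wd α (h + 1)) with hs
  let ε := Fintype.equivFin (Wd α (h + 1))
  let ex : Wd α (h + 1) → ℂ → ℂ := fun w z => μ (w.1.head w.2.1) * tow μ w.1.tail z
  have hex : ∀ w, AnalyticOnNhd ℂ (ex w) univ := fun w z hz => analyticAt_const.mul (tow_an μ _ z hz)
  have hF : FxM univ (fun k : Fin 0 => k.elim0) (fun i : Fin 0 => i) (fun i : Fin 0 => i.elim0)
      (fun k : Fin s => ex (ε.symm k)) :=
    { isOpen := isOpen_univ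
      conn := isPreconnected_univ
      ni := fun c => c.elim0
      ua := fun i => i.elim0
      un := fun i => i.elim0
      ui := fun c => c.elim0
      la := fun k => hex _
      li := by
        intro m c hm
        -- the polynomial
        set P : MvPolynomial (Option (Wd α h)) ℂ :=
          ∑ w : Wd α (h + 1), C ((m (ε w) : ℂ) * μ (w.1.head w.2.1)) * X (rest w) - C c with hP
        have hP0 : P = 0 := by
          refine ih 0 P (Eventually.of_forall fun z => ?_)
          rw [hP]
          simp only [map_sub, map_sum, map_mul, eval_C, eval_X]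
          have h1 : (∑ w : Wd α (h + 1), (m (ε w) : ℂ) * μ (w.1.head w.2.1) *
              (rest w).elim z (fun v => tow μ v.1 z)) = ∑ k : Fin s, (m k : ℂ) * ex (ε.symm k) z := by
            rw [← Equiv.sum_comp ε]
            refine Finset.sum_congr rfl fun w _ => ?_
            rw [rest_tow, Equiv.symm_apply_apply, mul_assoc]
          rw [h1, hm z (mem_univ _), sub_self]
        -- coefficients
        have hcoef : ∀ o : Option (Wd α h), ∑ w ∈ Finset.univ.filter (fun w : Wd α (h + 1) => rest w = o),
            (m (ε w) : ℂ) * μ (w.1.head w.2.1) = 0 := by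
          intro o
          have h1 : coeff (Finsupp.single o 1) P = 0 := by rw [hP0, coeff_zero]
          rw [hP, coeff_sub, coeff_C, if_neg (by
            intro h2
            have := DFunLike.congr_fun h2 o
            simp at this), sub_zero, coeff_sum] at h1
          rw [← h1, Finset.sum_filter]
          refine Finset.sum_congr rfl fun w _ => ?_
          rw [coeff_C_mul, coeff_X]
          by_cases hw : rest w = o
          · rw [if_pos hw, if_pos (by rw [hw]), mul_one]
          · rw [if_neg hw, if_neg (by
              intro h2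
              exact hw ((Finsupp.single_left_inj one_ne_zero).1 h2)), mul_zero]
        funext k
        set w₀ := ε.symm k with hw₀
        have h2 := hcoef (rest w₀)
        -- a linear relation between the `μ i`
        have : Fintype α := Fintype.ofFinite α
        let g : α → ℚ := fun i => if hi : i :: w₀.1.tail ≠ [] ∧ (i :: w₀.1.tail).length ≤ h + 1 then
          (m (ε ⟨i :: w₀.1.tail, hi⟩) : ℚ) else 0
        have hlen : ∀ i : α, i :: w₀.1.tail ≠ [] ∧ (i :: w₀.1.tail).length ≤ h + 1 := by
          intro i
          refine ⟨List.cons_ne_nil _ _, ?_⟩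
          have h3 := w₀.2.2
          have h4 : 0 < w₀.1.length := List.length_pos_iff.2 w₀.2.1
          rw [List.length_cons, List.length_tail]
          omega
        have hrest : ∀ i : α, rest (⟨i :: w₀.1.tail, hlen i⟩ : Wd α (h + 1)) = rest w₀ := by
          intro i
          unfold rest
          simp only [List.tail_cons]
        have h3 : ∑ i, g i • μ i = 0 := by
          rw [← h2]
          refine Finset.sum_bij (fun i _ => (⟨i :: w₀.1.tail, hlen i⟩ : Wd α (h + 1))) ?_ ?_ ?_ ?_
          · intro i _
            rw [Finset.mem_filter]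
            exact ⟨Finset.mem_univ _, hrest i⟩
          · intro i _ i' _ hii
            have := congrArg Subtype.val hii
            simp only [List.cons.injEq] at this
            exact this.1
          · intro w hw
            rw [Finset.mem_filter] at hw
            refine ⟨w.1.head w.2.1, Finset.mem_univ _, ?_⟩
            apply Subtype.ext
            show w.1.head w.2.1 :: w₀.1.tail = w.1
            rw [← rest_inj hw.2, List.cons_head_tail]
          · intro i _
            show g i • μ i = (m (ε ⟨i :: w₀.1.tail, hlen i⟩) : ℂ) * μ i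
            simp only [g, dif_pos (hlen i)]
            rw [Rat.smul_def]
            push_cast
            rfl
        have h4 := Fintype.linearIndependent_iff.1 hμ g h3 (w₀.1.head w₀.2.1)
        simp only [g, dif_pos (hlen _)] at h4
        have h5 : (⟨w₀.1.head w₀.2.1 :: w₀.1.tail, hlen _⟩ : Wd α (h + 1)) = w₀ :=
          Subtype.ext (List.cons_head_tail w₀.2.1)
        rw [h5, hw₀, Equiv.apply_symm_apply] at h4
        exact_mod_cast h4 }
  have hs0 : 0 < s + 0 := by
    obtain ⟨i⟩ := hne
    rw [hs, add_zero, Fintype.card_pos_iff]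
    exact ⟨⟨[i], List.cons_ne_nil _ _, by simp⟩⟩
  have hG : (Set.range μ).Countable := Set.countable_range μ
  have key := Pool.Agent.R349.Semi.locInd_gen hF hs0 ⟨0, mem_univ _⟩ (fun (w : Wd α (h + 1)) z => tow μ w.1 z)
    (fun w => tow_an μ _) (by rw [mul_zero, add_zero]) hG ?_
  · exact fun t => key t (mem_univ _)
  intro F hGF z _ htr i
  have hz : ∀ w : List α, w.length ≤ h + 1 → tow μ w z ∈ clo F (insert z (Set.range fun k : Wd α (h + 1) => tow μ k.1 z)) := by
    intro w hw
    cases w with
    | nil => exact subset_clo (Set.mem_insert _ _)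
    | cons i w => exact subset_clo (Set.mem_insert_of_mem _ ⟨⟨i :: w, List.cons_ne_nil _ _, hw⟩, rfl⟩)
  rcases i with i | i | i | i | i
  · change ex (ε.symm i) z ∈ _
    refine mul_mem (base_clo (hGF ⟨_, rfl⟩)) (hz _ ?_)
    rw [List.length_tail]
    have := (ε.symm i).2.2
    omega
  · change Complex.exp (ex (ε.symm i) z) ∈ _
    rw [show Complex.exp (ex (ε.symm i) z) = tow μ (ε.symm i).1 z from (tow_head μ _ z).symm]
    exact hz _ (ε.symm i).2.2
  · exact i.elim0
  · exact i.elim0
  · exact i.elim0

/-- the towers of height at most `h` are algebraically independent near every point -/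
theorem tow_loc {α : Type} [Finite α] [Nonempty α] {μ : α → ℂ} (hμ : LinearIndependent ℚ μ) (h : ℕ) :
    ∀ t : ℂ, LocInd (fun (w : Wd α h) z => tow μ w.1 z) t := by
  induction h with
  | zero =>
    intro t P hP
    have : IsEmpty (Wd α 0) := ⟨fun w => w.2.1 (List.length_eq_zero_iff.1 (Nat.le_zero.1 w.2.2))⟩
    -- a polynomial in one variable with infinitely many zeros
    have h0 : MvPolynomial.uniqueAlgEquiv ℂ (Option (Wd α 0)) P = 0 := by
      apply Polynomial.eq_zero_of_infinite_isRoot
      obtain ⟨r, hr, hball⟩ := Metric.eventually_nhds_iff_ball.1 hP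
      refine Set.Infinite.mono (s := Metric.ball t r) (fun z hz => ?_) (infinite_of_mem_nhds t (Metric.ball_mem_nhds t hr))
      show Polynomial.IsRoot _ z
      have h1 := hball z hz
      have h2 : (fun o : Option (Wd α 0) => o.elim z fun y => (fun (w : Wd α 0) z => tow μ w.1 z) y z) = fun _ => z := by
        funext o
        cases o with
        | none => rfl
        | some w => exact (IsEmpty.false w).elim
      rw [h2] at h1
      rw [Polynomial.IsRoot, ← h1]
      exact MvPolynomial.eval₂_const_uniqueAlgEquiv (f := P) (φ := RingHom.id ℂ) (a := z)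
    exact (map_eq_zero_iff _ (MvPolynomial.uniqueAlgEquiv ℂ (Option (Wd α 0))).injective).1 h0
  | succ h ih => exact tow_step hμ ih inferInstance

end Pool.Agent.L5helper73.GS

end
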